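import Pool.Agent.H877R3.Join.Final

/-!
# Oracles which make `P` and `PSPACE` equal, while their joins do not

Above every oracle `C` there are infinitely many oracles `A 0, A 1, A 2, ...`, each of which makes
`P` and `PSPACE` equal, such that relative to the join of any two of them `P` and `PSPACE` are
different; there is even a language in `UP` whose complement is not in `NP`.
-/

namespace Pool.Agent.Results.MP_f404b1_lc.JoinOfCollapsingOracles

open Pool.Agent.NPC Pool.Agent.H620R2.Gauge Pool.Agent.H877R3.Join

theorem result (C : Oracle) : ∃ A : ℕ → Oracle,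
    (∀ i, Reduces {x | C x = true} {x | A i x = true} ∧
      (∀ L, IsPSPACE (A i) L → Reduces L {x | A i x = true}) ∧
      ∀ L, IsP (A i) L ↔ IsPSPACE (A i) L) ∧
    ∀ i j, i ≠ j →
      (∃ L, IsUP (join (A i) (A j)) L ∧ ¬ IsNP (join (A i) (A j)) Lᶜ) ∧
      ∃ L, IsPSPACE (join (A i) (A j)) L ∧ ¬ IsP (join (A i) (A j)) L :=
  final C

end Pool.Agent.Results.MP_f404b1_lc.JoinOfCollapsingOracles
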