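import Pool.Agent.H522R3.Au.Sem
import Pool.Agent.H522R3.Au.Conv

/-!
# Symmetric networks for the intersection problem for finite automata

The problem whether some word is accepted by all automata of a list of deterministic finite automata
is complete for `PSPACE` (Kozen). The networks considered here read the tables of `m` automata with
`q` states over `k` letters; their wires carry elements of an arbitrary set `K`, and their gates
compute arbitrary functions of the multiset of their incoming values, so that without a condition of
symmetry few gates suffice for every problem.

1. Lower bound. Let the letters contain `2 w` quadruples and `3 w` pairs (the embedding `κ`), and let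
`6 w` of the `m ≥ 11 w` automata be chosen, in `3 w` pairs (the embedding `α`). For all translations
`U u` of the quadruples `u` by elements of Klein's four-group and all `a : Fin (3 w) → ZMod 2`,
translate the letters of the quadruples by `U`, exchange the two letters of the pair `p` if
`a p = 1`, and exchange the states `0` and `1` of the two automata of the pair `p` if `a p = 1`.
These are `2 ^ (7 w)` renamings of letters and states. Every network symmetric under them has at
least `2 ^ ⌊w / 3200⌋` gates.

2. Symmetrisation. Symmetry under any group `D` of renamings of letters and states, the states being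
renamed independently for the different automata, costs at most a factor `|D|` and one more gate.

The theorems are `lower` and `sym_auts` of the starting files `Pool/Agent/H522R3/Au/Sem.lean` and
`Conv.lean`, which had not been handed in.
-/

set_option autoImplicit false

namespace Pool.Agent.Results.MP_f404b1_lc.SymmetricAutomata

open Pool.Agent.H30R2.PS H522R3.Au

theorem result :
    -- the lower bound
    (∀ (w m q k : ℕ) (K Gt : Type) [Fintype Gt] (enc : Bool → K), enc true ≠ enc false →
      ∀ (hq : 4 ≤ q), 11 * w ≤ m →
      ∀ (κ : ((Fin (2 * w) × Four) ⊕ (Fin (3 * w) × ZMod 2)) ↪ Fin k)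
        (α : Fin (3 * w) × Bool ↪ Fin m) (N : Net (Nm m q k) K Gt), Decides enc N →
      (∀ (U : Fin (2 * w) → Four) (a : Fin (3 * w) → ZMod 2),
        SymUnder N ((blockPerm U a).viaEmbedding κ) (stPerm hq α (fun pc => a pc.1))) →
      2 ^ (w / 3200) ≤ Fintype.card Gt) ∧
    -- symmetrisation
    (∀ (m q k : ℕ) (K Gt : Type) [Fintype Gt] (enc : Bool → K), enc true ≠ enc false →
      ∀ (D : Subgroup (Equiv.Perm (Fin k) × (Fin m → Equiv.Perm (Fin q))))
        (N : Net (Nm m q k) K Gt), Decides enc N →
      ∃ (Gt' : Type) (_ : Fintype Gt') (N' : Net (Nm m q k) K Gt'), Decides enc N' ∧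
        (∀ d ∈ D, SymUnder N' d.1 d.2) ∧
        Fintype.card Gt' = Nat.card D * Fintype.card Gt + 1) :=
  ⟨fun _ _ _ _ _ _ _ enc henc hq hm κ α N hN hsym => lower enc henc hq hm κ α N hN hsym,
    fun _ _ _ _ _ _ enc henc D N hN => sym_auts enc henc D N hN⟩

end Pool.Agent.Results.MP_f404b1_lc.SymmetricAutomata
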