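import Pool.Agent.H334R5.Ps.Final

/-!
# P and PSPACE: excluding one threshold pattern

Let `x₁, …, xₘ` be polynomially many strings such that exactly the first `j` of them belong to `A`.
The theorem says that `P = PSPACE` if and only if, for some `PSPACE`-hard set `A`, a number
`k ≠ j` can be found in polynomial time.

Polynomial time and space are measured with Mathlib's `Turing.FinTM2` (through
`Pool.Agent.NPC.PolyTime` and `Pool.Agent.H623R2.PS.InPSPACE`); `InP`, `InPSPACE`, `PSPACEHard` are
the usual notions. `Pattern` is in `Pool.Agent.H334R5.Nd.Defs`, `DetExcluder` is in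
`Pool.Agent.H334R5.Nd.Det`.
-/

set_option autoImplicit false

namespace Pool.Agent.Results.MP_f404b1_lc.ThresholdExclusion

open Pool.Agent.NPC Pool.Agent.H623R2.PS Pool.Agent.H334R5.Nd Pool.Agent.H334R5.Ps

/-- `P = PSPACE` if and only if for some `PSPACE`-hard set `A` a polynomial-time algorithm finds,
for every list of `m ≥ q(n)` strings of length at most `n` which has a threshold pattern (the
first `j` strings are in `A`, the others are not), a number `k ≤ m` with `k ≠ j`. -/
theorem result :
    (∃ (A : Set (List Bool)) (q : Polynomial ℕ) (E : List (List Bool) → ℕ),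
      PSPACEHard A ∧ DetExcluder A q E) ↔ ∀ L : Set (List Bool), InPSPACE L → InP L :=
  pspace_iff

end Pool.Agent.Results.MP_f404b1_lc.ThresholdExclusion
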